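import Pool.Agent.Helper98.EX.Stmts3

/-! # EVSUM: sums of the travel weights -/

set_option autoImplicit false

namespace Pool.Agent.Helper98.EX

open Finset MeasureTheory ProbabilityTheory Filter
open scoped Topology

theorem evsum_RR_meas {Ω : Type} [MeasurableSpace Ω] {P : Measure Ω} {X : ℕ → Ω → ℝ} (h : IIDE P X)
    (z x : ℕ) : Measurable (fun ω => RR (rE (EE X ω)) (lE (EE X ω)) z x) := by
  unfold RR
  apply Finset.measurable_prod
  intro b _
  unfold lE rE EE
  exact (measurable_const.sub (h.meas b)).div (h.meas (b - 1))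

theorem evsum_RR_nonneg {Ω : Type} [MeasurableSpace Ω] {P : Measure Ω} {X : ℕ → Ω → ℝ} (h : IIDE P X)
    (z x : ℕ) (ω : Ω) : 0 ≤ RR (rE (EE X ω)) (lE (EE X ω)) z x := by
  unfold RR
  apply Finset.prod_nonneg
  intro b _
  unfold lE rE EE
  have h1 := h.rng b ω
  have h2 := h.rng (b - 1) ω
  exact div_nonneg (by linarith) h2.1.le

theorem evsum_mirr (N : ℕ) (r l : ℕ → ℝ) {y d : ℕ} (hy : y < N) (hd : d ≤ y) :
    RR (mirr N r) (mirr N l) (y - d) y = RR r l (N - 1 - y) (N - 1 - y + d) := by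
  unfold RR mirr
  apply Finset.prod_nbij' (fun b => N - b) (fun b => N - b)
  · intro b hb
    rw [Finset.mem_Ioc] at hb ⊢
    omega
  · intro b hb
    rw [Finset.mem_Ioc] at hb ⊢
    omega
  · intro b hb
    rw [Finset.mem_Ioc] at hb
    omega
  · intro b hb
    rw [Finset.mem_Ioc] at hb
    omega
  · intro b _
    rfl

/-- geometric sums -/
theorem evsum_geom {θ η0 : ℝ} (h0 : 0 < θ) (h1 : θ < 1) (hη : 0 < η0) (hη1 : η0 ≤ (1 - θ) / 2)
    (n : ℕ) : ∑ d ∈ Finset.range n, (1 + η0) ^ (d + 1) * θ ^ d ≤ 4 / (1 - θ) := by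
  have hq : (1 + η0) * θ ≤ (1 + θ) / 2 := by nlinarith
  have hq0 : 0 ≤ (1 + η0) * θ := by positivity
  have hq1 : (1 + θ) / 2 < 1 := by linarith
  have hq2 : 0 ≤ (1 + θ) / 2 := by linarith
  calc ∑ d ∈ Finset.range n, (1 + η0) ^ (d + 1) * θ ^ d
      ≤ ∑ d ∈ Finset.range n, 2 * ((1 + θ) / 2) ^ d := by
        apply Finset.sum_le_sum
        intro d _
        rw [pow_succ]
        have e1 : (1 + η0) ^ d * (1 + η0) * θ ^ d = (1 + η0) * ((1 + η0) * θ) ^ d := by
          rw [mul_pow]
          ring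
        rw [e1]
        have e2 : ((1 + η0) * θ) ^ d ≤ ((1 + θ) / 2) ^ d := pow_le_pow_left₀ hq0 hq d
        exact mul_le_mul (by linarith) e2 (by positivity) (by norm_num)
    _ = 2 * ∑ d ∈ Finset.range n, ((1 + θ) / 2) ^ d := by rw [Finset.mul_sum]
    _ ≤ 2 * (1 - (1 + θ) / 2)⁻¹ := by
        apply mul_le_mul_of_nonneg_left _ (by norm_num)
        have := (summable_geometric_of_lt_one hq2 hq1).sum_le_tsum (Finset.range n)
          (fun d _ => pow_nonneg hq2 d)
        rwa [tsum_geometric_of_lt_one hq2 hq1] at this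
    _ = 4 / (1 - θ) := by
        have : (1 : ℝ) - θ ≠ 0 := by linarith
        have e : 1 - (1 + θ) / 2 = (1 - θ) / 2 := by ring
        rw [e]
        field_simp
        norm_num

/-- Markov inequality for the double sum -/
theorem evsum_gen {Ω : Type} [MeasurableSpace Ω] (P : Measure Ω) (T : ℕ → ℕ → Ω → ℝ)
    {C θ η0 e : ℝ} (hC : 0 < C) (h0 : 0 < θ) (h1 : θ < 1) (hη : 0 < η0) (hη1 : η0 ≤ (1 - θ) / 2)
    (he : 0 < e) (N w : ℕ) (hN : 1 ≤ N) (hm : ∀ y d, Measurable (T y d)) (hT0 : ∀ y d ω, 0 ≤ T y d ω)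
    (hT : ∀ y d, y < N - 1 → d ≤ y →
      ∫⁻ ω, ENNReal.ofReal (T y d ω) ∂P ≤ ENNReal.ofReal (C * θ ^ d)) :
    P {ω | C * (4 / (1 - θ)) / e * N ≤ ∑ y ∈ Finset.range (N - 1),
      ∑ d ∈ Finset.range (min w (y + 1)), (1 + η0) ^ (d + 1) * T y d ω} ≤ ENNReal.ofReal e := by
  have h1θ : 0 < 1 - θ := by linarith
  have hNpos : (0 : ℝ) < N := by exact_mod_cast hN
  set F : Ω → ℝ := fun ω => ∑ y ∈ Finset.range (N - 1),
      ∑ d ∈ Finset.range (min w (y + 1)), (1 + η0) ^ (d + 1) * T y d ω with hF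
  have hFm : Measurable F := by
    rw [hF]
    apply Finset.measurable_sum
    intro y _
    apply Finset.measurable_sum
    intro d _
    exact measurable_const.mul (hm y d)
  set K : ℝ := C * (4 / (1 - θ)) with hK
  have hK0 : 0 < K := by positivity
  have hint : ∫⁻ ω, ENNReal.ofReal (F ω) ∂P ≤ ENNReal.ofReal (K * N) := by
    have e1 : ∀ ω, ENNReal.ofReal (F ω) = ∑ y ∈ Finset.range (N - 1),
        ∑ d ∈ Finset.range (min w (y + 1)), ENNReal.ofReal ((1 + η0) ^ (d + 1)) *
          ENNReal.ofReal (T y d ω) := by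
      intro ω
      rw [hF]
      dsimp only
      rw [ENNReal.ofReal_sum_of_nonneg]
      · apply Finset.sum_congr rfl
        intro y _
        rw [ENNReal.ofReal_sum_of_nonneg]
        · apply Finset.sum_congr rfl
          intro d _
          rw [ENNReal.ofReal_mul (by positivity)]
        · intro d _
          exact mul_nonneg (by positivity) (hT0 y d ω)
      · intro y _
        apply Finset.sum_nonneg
        intro d _
        exact mul_nonneg (by positivity) (hT0 y d ω)
    rw [lintegral_congr e1, lintegral_finsetSum]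
    · calc ∑ y ∈ Finset.range (N - 1), ∫⁻ ω, ∑ d ∈ Finset.range (min w (y + 1)),
            ENNReal.ofReal ((1 + η0) ^ (d + 1)) * ENNReal.ofReal (T y d ω) ∂P
          ≤ ∑ y ∈ Finset.range (N - 1), ENNReal.ofReal K := by
            apply Finset.sum_le_sum
            intro y hy
            rw [Finset.mem_range] at hy
            rw [lintegral_finsetSum]
            · calc ∑ d ∈ Finset.range (min w (y + 1)), ∫⁻ ω,
                    ENNReal.ofReal ((1 + η0) ^ (d + 1)) * ENNReal.ofReal (T y d ω) ∂P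
                  ≤ ∑ d ∈ Finset.range (min w (y + 1)),
                    ENNReal.ofReal ((1 + η0) ^ (d + 1) * (C * θ ^ d)) := by
                    apply Finset.sum_le_sum
                    intro d hd
                    rw [Finset.mem_range] at hd
                    rw [lintegral_const_mul _ (hm y d).ennreal_ofReal, ENNReal.ofReal_mul (by positivity)]
                    exact mul_le_mul_right (hT y d hy (by omega)) _
                _ = ENNReal.ofReal (∑ d ∈ Finset.range (min w (y + 1)),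
                    (1 + η0) ^ (d + 1) * (C * θ ^ d)) := by
                    rw [ENNReal.ofReal_sum_of_nonneg]
                    intro d _
                    positivity
                _ ≤ ENNReal.ofReal K := by
                    apply ENNReal.ofReal_le_ofReal
                    have := mul_le_mul_of_nonneg_left (evsum_geom h0 h1 hη hη1 (min w (y + 1))) hC.le
                    refine le_trans (le_of_eq ?_) this
                    rw [Finset.mul_sum]
                    apply Finset.sum_congr rfl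
                    intro d _
                    ring
            · intro d _
              exact measurable_const.mul (hm y d).ennreal_ofReal
        _ ≤ ENNReal.ofReal (K * N) := by
            rw [Finset.sum_const, Finset.card_range, nsmul_eq_mul, mul_comm K, ENNReal.ofReal_mul
              (Nat.cast_nonneg _), ENNReal.ofReal_natCast]
            apply mul_le_mul_left
            exact_mod_cast Nat.sub_le N 1
    · intro y _
      apply Finset.measurable_sum
      intro d _
      exact measurable_const.mul (hm y d).ennreal_ofReal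
  have hmk := mul_meas_ge_le_lintegral₀ (μ := P) (f := fun ω => ENNReal.ofReal (F ω))
    hFm.ennreal_ofReal.aemeasurable (ENNReal.ofReal (K / e * N))
  have hsub : {ω | K / e * N ≤ F ω} ⊆ {ω | ENNReal.ofReal (K / e * N) ≤ ENNReal.ofReal (F ω)} := by
    intro ω hω
    exact ENNReal.ofReal_le_ofReal hω
  have h2 : ENNReal.ofReal (K / e * N) * P {ω | K / e * N ≤ F ω} ≤ ENNReal.ofReal (K * N) :=
    ((mul_le_mul_right (measure_mono hsub) _).trans hmk).trans hint
  have h3 : ENNReal.ofReal (K * N) = ENNReal.ofReal (K / e * N) * ENNReal.ofReal e := by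
    rw [← ENNReal.ofReal_mul (by positivity)]
    congr 1
    field_simp
  rw [h3] at h2
  have h4 : ENNReal.ofReal (K / e * N) ≠ 0 := by
    rw [ne_eq, ENNReal.ofReal_eq_zero, not_le]
    positivity
  exact (ENNReal.mul_le_mul_iff_right h4 ENNReal.ofReal_ne_top).1 h2

theorem st_EVSUM (hMOM : ST_MOM) : ST_EVSUM := by
  intro Ω _ P X θ hX h0 h1 hM ηp hp
  obtain ⟨C, hC, hCb⟩ := hMOM Ω P X 1 θ hX (le_refl _) h0 h1 hM
  have h1θ : 0 < 1 - θ := by linarith
  refine ⟨2 * (C * (4 / (1 - θ)) / (ηp / 2)), (1 - θ) / 2, by positivity, by linarith, ?_⟩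
  intro η0 N w hη hη1 hN
  have hNpos : (0 : ℝ) < N := by exact_mod_cast hN
  have hK0 : 0 < C * (4 / (1 - θ)) / (ηp / 2) := by positivity
  -- the two arrays
  set T1 : ℕ → ℕ → Ω → ℝ := fun y d ω =>
    RR (rE (EE X ω)) (lE (EE X ω)) (y - d) y / X y ω with hT1
  set T2 : ℕ → ℕ → Ω → ℝ := fun y d ω =>
    RR (rE (EE X ω)) (lE (EE X ω)) (N - 1 - y) (N - 1 - y + d) / X (N - 1 - y - 1) ω with hT2
  have hm1 : ∀ y d, Measurable (T1 y d) := fun y d => (evsum_RR_meas hX _ _).div (hX.meas _)
  have hm2 : ∀ y d, Measurable (T2 y d) := fun y d => (evsum_RR_meas hX _ _).div (hX.meas _)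
  have hn1 : ∀ y d ω, 0 ≤ T1 y d ω := fun y d ω =>
    div_nonneg (evsum_RR_nonneg hX _ _ ω) (hX.rng _ ω).1.le
  have hn2 : ∀ y d ω, 0 ≤ T2 y d ω := fun y d ω =>
    div_nonneg (evsum_RR_nonneg hX _ _ ω) (hX.rng _ ω).1.le
  have hb1 : ∀ y d, y < N - 1 → d ≤ y →
      ∫⁻ ω, ENNReal.ofReal (T1 y d ω) ∂P ≤ ENNReal.ofReal (C * θ ^ d) := by
    intro y d _ hd
    have := (hCb (y - d) y (Nat.sub_le _ _)).2.1
    simp only [Real.rpow_one] at this
    have e : y - (y - d) = d := by omega
    rw [e] at this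
    exact this
  have hb2 : ∀ y d, y < N - 1 → d ≤ y →
      ∫⁻ ω, ENNReal.ofReal (T2 y d ω) ∂P ≤ ENNReal.ofReal (C * θ ^ d) := by
    intro y d hy _
    have := (hCb (N - 1 - y) (N - 1 - y + d) (Nat.le_add_right _ _)).2.2 (by omega)
    simp only [Real.rpow_one] at this
    have e : N - 1 - y + d - (N - 1 - y) = d := by omega
    rw [e] at this
    exact this
  have g1 := evsum_gen P T1 hC h0 h1 hη hη1 (half_pos hp) N w hN hm1 hn1 hb1
  have g2 := evsum_gen P T2 hC h0 h1 hη hη1 (half_pos hp) N w hN hm2 hn2 hb2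
  have hat1 : ∀ ω, ∑ y ∈ Finset.range (N - 1), atl (rE (EE X ω)) (lE (EE X ω)) η0 w y
      = ∑ y ∈ Finset.range (N - 1), ∑ d ∈ Finset.range (min w (y + 1)),
        (1 + η0) ^ (d + 1) * T1 y d ω := by
    intro ω
    apply Finset.sum_congr rfl
    intro y _
    unfold atl
    apply Finset.sum_congr rfl
    intro d _
    rw [mul_div_assoc]
    rfl
  have hat2 : ∀ ω, ∑ y ∈ Finset.range (N - 1),
        atl (mirr N (rE (EE X ω))) (mirr N (lE (EE X ω))) η0 w y
      = ∑ y ∈ Finset.range (N - 1), ∑ d ∈ Finset.range (min w (y + 1)),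
        (1 + η0) ^ (d + 1) * T2 y d ω := by
    intro ω
    apply Finset.sum_congr rfl
    intro y hy
    rw [Finset.mem_range] at hy
    unfold atl
    apply Finset.sum_congr rfl
    intro d hd
    rw [Finset.mem_range] at hd
    rw [evsum_mirr N _ _ (by omega) (by omega), mul_div_assoc]
    have e : mirr N (rE (EE X ω)) (y + 1) = X (N - 1 - y - 1) ω := by
      unfold mirr rE EE
      have : N - (y + 1) - 1 = N - 1 - y - 1 := by omega
      rw [this]
    rw [e]
  have hsub : {ω | ¬ (∑ y ∈ Finset.range (N - 1), atl (rE (EE X ω)) (lE (EE X ω)) η0 w y ≤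
        2 * (C * (4 / (1 - θ)) / (ηp / 2)) * N ∧
      ∑ y ∈ Finset.range (N - 1),
        atl (mirr N (rE (EE X ω))) (mirr N (lE (EE X ω))) η0 w y ≤
        2 * (C * (4 / (1 - θ)) / (ηp / 2)) * N)} ⊆
      {ω | C * (4 / (1 - θ)) / (ηp / 2) * N ≤ ∑ y ∈ Finset.range (N - 1),
        ∑ d ∈ Finset.range (min w (y + 1)), (1 + η0) ^ (d + 1) * T1 y d ω} ∪
      {ω | C * (4 / (1 - θ)) / (ηp / 2) * N ≤ ∑ y ∈ Finset.range (N - 1),
        ∑ d ∈ Finset.range (min w (y + 1)), (1 + η0) ^ (d + 1) * T2 y d ω} := by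
    intro ω hω
    rw [Set.mem_ofPred_eq, hat1, hat2] at hω
    have hle : C * (4 / (1 - θ)) / (ηp / 2) * N ≤ 2 * (C * (4 / (1 - θ)) / (ηp / 2)) * N := by
      nlinarith [mul_pos hK0 hNpos]
    by_cases hc : ∑ y ∈ Finset.range (N - 1), ∑ d ∈ Finset.range (min w (y + 1)),
        (1 + η0) ^ (d + 1) * T1 y d ω ≤ 2 * (C * (4 / (1 - θ)) / (ηp / 2)) * N
    · right
      have : ¬ (∑ y ∈ Finset.range (N - 1), ∑ d ∈ Finset.range (min w (y + 1)),
        (1 + η0) ^ (d + 1) * T2 y d ω ≤ 2 * (C * (4 / (1 - θ)) / (ηp / 2)) * N) := fun h => hω ⟨hc, h⟩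
      push Not at this
      exact hle.trans this.le
    · left
      push Not at hc
      exact hle.trans hc.le
  calc P _ ≤ P _ := measure_mono hsub
    _ ≤ _ := measure_union_le _ _
    _ ≤ ENNReal.ofReal (ηp / 2) + ENNReal.ofReal (ηp / 2) := add_le_add g1 g2
    _ = ENNReal.ofReal ηp := by
        rw [← ENNReal.ofReal_add (by positivity) (by positivity)]
        congr 1
        ring

end Pool.Agent.Helper98.EX
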