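import Pool.Agent.Helper35.EX.QPOINb

/-! # QPOIN: Poincare inequality on the window -/

set_option autoImplicit false

namespace Pool.Agent.Helper98.EX

open Finset

variable {N : ℕ}

/-- the gradient along the canonical step -/
noncomputable def qpoin_g (A x0 B : ℕ) (f : Cfg N → ℝ) (η : Cfg N) : ℝ :=
  (f η - f (qpoin_nx A x0 B η)) ^ 2

theorem qpoin_g_nonneg (A x0 B : ℕ) (f : Cfg N → ℝ) (η : Cfg N) : 0 ≤ qpoin_g A x0 B f η :=
  sq_nonneg _

theorem qpoin_g_zero {A x0 B : ℕ} (f : Cfg N → ℝ) {η : Cfg N} (h : ¬ QUns A x0 B η) :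
    qpoin_g A x0 B f η = 0 := by
  unfold qpoin_g
  rw [qpoin_nx_ne h, sub_self]
  norm_num

theorem qpoin_g_le {A x0 B : ℕ} (hB : B ≤ N) (f : Cfg N → ℝ) (η : Cfg N) :
    qpoin_g A x0 B f η ≤ ∑ b ∈ Finset.Ioo A B, (f (Rm b η) - f η) ^ 2 := by
  by_cases hu : QUns A x0 B η
  · obtain ⟨y, z, hp⟩ := hu
    have ho := qpoin_occ hB hp
    unfold qpoin_g
    rw [qpoin_nx_eq hp, ← neg_sub, neg_sq]
    exact Finset.single_le_sum (f := fun b => (f (Rm b η) - f η) ^ 2) (fun b _ => sq_nonneg _)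
      (Finset.mem_Ioo.2 ⟨ho.1, ho.2.1⟩)
  · rw [qpoin_g_zero f hu]
    exact Finset.sum_nonneg fun b _ => sq_nonneg _

/-- Cauchy-Schwarz along the path -/
theorem qpoin_cs (A x0 B L : ℕ) (f : Cfg N → ℝ) (ξ : Cfg N)
    (h : f ((qpoin_nx A x0 B)^[L] ξ) = 0) :
    f ξ ^ 2 ≤ L * ∑ i ∈ Finset.range L, qpoin_g A x0 B f ((qpoin_nx A x0 B)^[i] ξ) := by
  have h1 : f ξ = ∑ i ∈ Finset.range L, (f ((qpoin_nx A x0 B)^[i] ξ) -
      f ((qpoin_nx A x0 B)^[i + 1] ξ)) := by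
    rw [Finset.sum_range_sub']
    rw [h, sub_zero]
    rfl
  have h2 := sq_sum_le_card_mul_sum_sq (s := Finset.range L)
    (f := fun i => f ((qpoin_nx A x0 B)^[i] ξ) - f ((qpoin_nx A x0 B)^[i + 1] ξ))
  rw [← h1, Finset.card_range] at h2
  refine h2.trans (le_of_eq ?_)
  congr 1
  apply Finset.sum_congr rfl
  intro i _
  unfold qpoin_g
  rw [Function.iterate_succ_apply']

open Classical in
/-- number of visits -/
theorem qpoin_visits {A x0 B : ℕ} (hB : B ≤ N) (L : ℕ) {ξ ζ : Cfg N}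
    (hu : QUns A x0 B ζ) :
    ∑ i ∈ Finset.range L, (if (qpoin_nx A x0 B)^[i] ξ = ζ then (1 : ℝ) else 0) ≤
      ∑ p ∈ Finset.Ico A x0, ∑ q ∈ Finset.Ico x0 B, (if QRel A x0 B p q ξ ζ then (1 : ℝ) else 0) := by
  have hnn : ∀ p ∈ Finset.Ico A x0, 0 ≤ ∑ q ∈ Finset.Ico x0 B,
      (if QRel A x0 B p q ξ ζ then (1 : ℝ) else 0) := by
    intro p _
    apply Finset.sum_nonneg
    intro q _
    split_ifs <;> norm_num
  by_cases hex : ∃ i ∈ Finset.range L, (qpoin_nx A x0 B)^[i] ξ = ζ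
  · obtain ⟨i, hi, he⟩ := hex
    have h1 : ∑ j ∈ Finset.range L, (if (qpoin_nx A x0 B)^[j] ξ = ζ then (1 : ℝ) else 0) = 1 := by
      rw [Finset.sum_eq_single i]
      · rw [if_pos he]
      · intro j _ hj
        rw [if_neg]
        intro he'
        have a1 := qpoin_F_it hB ξ i (by rw [he]; exact hu)
        have a2 := qpoin_F_it hB ξ j (by rw [he']; exact hu)
        rw [he] at a1
        rw [he'] at a2
        omega
      · intro hc
        exact absurd hi hc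
    rw [h1]
    obtain ⟨p, q, hr⟩ := qpoin_rel_it hB ξ i (by rw [he]; exact hu)
    rw [he] at hr
    have hr' := hr
    obtain ⟨y, z, hp, e1, e2, e3, e4, -⟩ := hr'
    have hpm : p ∈ Finset.Ico A x0 := Finset.mem_Ico.2 ⟨e1, lt_of_le_of_lt e2 hp.2.1⟩
    have hqm : q ∈ Finset.Ico x0 B := Finset.mem_Ico.2 ⟨le_trans hp.2.2.2.2.1 e3, e4⟩
    have b1 := Finset.single_le_sum hnn hpm
    have b2 := Finset.single_le_sum (f := fun q => if QRel A x0 B p q ξ ζ then (1 : ℝ) else 0)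
      (fun q _ => by split_ifs <;> norm_num) hqm
    have b3 : (if QRel A x0 B p q ξ ζ then (1 : ℝ) else 0) = 1 := if_pos hr
    linarith
  · have h1 : ∑ j ∈ Finset.range L, (if (qpoin_nx A x0 B)^[j] ξ = ζ then (1 : ℝ) else 0) = 0 := by
      apply Finset.sum_eq_zero
      intro j hj
      rw [if_neg]
      intro he
      exact hex ⟨j, hj, he⟩
    rw [h1]
    exact Finset.sum_nonneg hnn

theorem qpoin_pw_pos {r l : ℕ → ℝ} (ha : Adm N r l) (hl : Pos N l) {A x0 B : ℕ} (hx : x0 < N)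
    (hB : B ≤ N) (η : Cfg N) : 0 < pw r l A x0 B η := by
  rw [qpoin_pw]
  exact mul_pos (qpoin_wP_pos ha hl hx η) (qpoin_wQ_pos ha hl hB η)

open Classical in
theorem qpoin_desc {r l : ℕ → ℝ} (ha : Adm N r l) (hl : Pos N l) {A x0 B : ℕ} (hA : A ≤ x0)
    (hB : B ≤ N) {D Zs : ℝ} (hD : 1 ≤ D)
    (hDR : ∀ z x, A ≤ z → z ≤ x → x < B → RR r l z x ≤ D)
    (hZ : ∑ z ∈ Finset.Ico A x0, RR r l z x0 + ∑ x ∈ Finset.Ico x0 B, RR r l x0 x ≤ Zs)
    (η0 : Cfg N) (L : ℕ) {ζ : Cfg N} (hu : QUns A x0 B ζ) :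
    ∑ ξ ∈ XW A x0 B η0, pw r l A x0 B ξ *
      ∑ i ∈ Finset.range L, (if (qpoin_nx A x0 B)^[i] ξ = ζ then (1 : ℝ) else 0) ≤
    (((x0 : ℝ) - A) * ((B : ℝ) - x0)) * (D ^ 2 * pw r l A x0 B ζ * Real.exp Zs) := by
  have hx : x0 < B := by
    obtain ⟨y, z, hp⟩ := hu
    exact lt_of_le_of_lt hp.2.2.2.2.1 hp.2.2.2.2.2.1
  have hxN : x0 < N := by omega
  have h1 : ∑ ξ ∈ XW A x0 B η0, pw r l A x0 B ξ *
      ∑ i ∈ Finset.range L, (if (qpoin_nx A x0 B)^[i] ξ = ζ then (1 : ℝ) else 0) ≤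
      ∑ ξ ∈ XW A x0 B η0, pw r l A x0 B ξ *
        ∑ p ∈ Finset.Ico A x0, ∑ q ∈ Finset.Ico x0 B, (if QRel A x0 B p q ξ ζ then (1 : ℝ) else 0) := by
    apply Finset.sum_le_sum
    intro ξ _
    exact mul_le_mul_of_nonneg_left (qpoin_visits hB L hu) (qpoin_pw_pos ha hl hxN hB ξ).le
  have h2 : ∑ ξ ∈ XW A x0 B η0, pw r l A x0 B ξ *
        ∑ p ∈ Finset.Ico A x0, ∑ q ∈ Finset.Ico x0 B, (if QRel A x0 B p q ξ ζ then (1 : ℝ) else 0)
      = ∑ p ∈ Finset.Ico A x0, ∑ q ∈ Finset.Ico x0 B, ∑ ξ ∈ XW A x0 B η0,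
        pw r l A x0 B ξ * (if QRel A x0 B p q ξ ζ then (1 : ℝ) else 0) := by
    simp_rw [Finset.mul_sum]
    rw [Finset.sum_comm]
    apply Finset.sum_congr rfl
    intro p _
    rw [Finset.sum_comm]
  have h3 : ∀ p ∈ Finset.Ico A x0, ∀ q ∈ Finset.Ico x0 B, ∑ ξ ∈ XW A x0 B η0,
        pw r l A x0 B ξ * (if QRel A x0 B p q ξ ζ then (1 : ℝ) else 0) ≤
        D ^ 2 * pw r l A x0 B ζ * Real.exp Zs := by
    intro p hp q hq
    rw [Finset.mem_Ico] at hp hq
    have e1 : ∑ ξ ∈ XW A x0 B η0, pw r l A x0 B ξ * (if QRel A x0 B p q ξ ζ then (1 : ℝ) else 0)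
        = ∑ ξ ∈ (XW A x0 B η0).filter (fun ξ => QRel A x0 B p q ξ ζ), pw r l A x0 B ξ := by
      rw [Finset.sum_filter]
      apply Finset.sum_congr rfl
      intro ξ _
      rw [mul_ite, mul_one, mul_zero]
    rw [e1]
    have e2 : ∑ ξ ∈ (XW A x0 B η0).filter (fun ξ => QRel A x0 B p q ξ ζ), pw r l A x0 B ξ ≤
        ∑ ξ ∈ (XW A x0 B η0).filter (fun ξ => QRel A x0 B p q ξ ζ),
          D ^ 2 * pw r l A x0 B ζ * (qpoin_wP r l x0 (p + 1) x0 ξ * qpoin_wQ r l x0 x0 q ξ) := by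
      apply Finset.sum_le_sum
      intro ξ hξ
      rw [Finset.mem_filter] at hξ
      exact qpoin_weight ha hl hB hD hDR hξ.2
    refine e2.trans ?_
    rw [← Finset.mul_sum]
    apply mul_le_mul_of_nonneg_left _ (mul_nonneg (by positivity) (qpoin_pw_pos ha hl hxN hB ζ).le)
    exact qpoin_sum_inner ha hl hB hZ p q hp.1 hxN hq.2 _ ζ η0 (fun ξ hξ => by
      rw [Finset.mem_filter] at hξ
      exact hξ)
  refine h1.trans ?_
  rw [h2]
  calc ∑ p ∈ Finset.Ico A x0, ∑ q ∈ Finset.Ico x0 B, ∑ ξ ∈ XW A x0 B η0,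
        pw r l A x0 B ξ * (if QRel A x0 B p q ξ ζ then (1 : ℝ) else 0)
      ≤ ∑ p ∈ Finset.Ico A x0, ∑ q ∈ Finset.Ico x0 B, D ^ 2 * pw r l A x0 B ζ * Real.exp Zs :=
        Finset.sum_le_sum fun p hp => Finset.sum_le_sum fun q hq => h3 p hp q hq
    _ = (((x0 : ℝ) - A) * ((B : ℝ) - x0)) * (D ^ 2 * pw r l A x0 B ζ * Real.exp Zs) := by
        rw [Finset.sum_const, Finset.sum_const, Nat.card_Ico, Nat.card_Ico, nsmul_eq_mul, nsmul_eq_mul,
          Nat.cast_sub hA, Nat.cast_sub hx.le]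
        ring

theorem st_QPOIN : ST_QPOIN := by
  classical
  intro N r l A x0 B D rmin Zs η0 f ha hl hA hx hAB hB hrmin hr hD hDR hZ hf
  have hAR : (A : ℝ) ≤ x0 := by exact_mod_cast hA
  have hxR : (x0 : ℝ) ≤ B := by exact_mod_cast hx
  have hABR : (A : ℝ) < B := by exact_mod_cast hAB
  have hN : (0 : ℝ) < N := by
    have : 0 < N := by omega
    exact_mod_cast this
  rcases Nat.lt_or_ge x0 N with hxN | hxN
  · set L := (B - A) * (B - A) with hL
    have hLR : (L : ℝ) = ((B : ℝ) - A) ^ 2 := by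
      rw [hL, Nat.cast_mul, Nat.cast_sub hAB.le]
      ring
    have hpw : ∀ η : Cfg N, 0 < pw r l A x0 B η := qpoin_pw_pos ha hl hxN hB
    -- path
    have h1 : ∑ η ∈ XW A x0 B η0, pw r l A x0 B η * f η ^ 2 ≤
        ∑ η ∈ XW A x0 B η0, pw r l A x0 B η *
          (L * ∑ i ∈ Finset.range L, qpoin_g A x0 B f ((qpoin_nx A x0 B)^[i] η)) := by
      apply Finset.sum_le_sum
      intro η hη
      apply mul_le_mul_of_nonneg_left _ (hpw η).le
      exact qpoin_cs A x0 B L f η (hf _ (qpoin_end hA hx hAB hB hη))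
    have h2 : ∑ η ∈ XW A x0 B η0, pw r l A x0 B η *
          (L * ∑ i ∈ Finset.range L, qpoin_g A x0 B f ((qpoin_nx A x0 B)^[i] η))
        = L * ∑ ζ ∈ XW A x0 B η0, qpoin_g A x0 B f ζ * ∑ ξ ∈ XW A x0 B η0, pw r l A x0 B ξ *
          ∑ i ∈ Finset.range L, (if (qpoin_nx A x0 B)^[i] ξ = ζ then (1 : ℝ) else 0) := by
      have e1 : ∀ ξ ∈ XW A x0 B η0, ∀ i ∈ Finset.range L,
          qpoin_g A x0 B f ((qpoin_nx A x0 B)^[i] ξ) = ∑ ζ ∈ XW A x0 B η0,
            (if (qpoin_nx A x0 B)^[i] ξ = ζ then (1 : ℝ) else 0) * qpoin_g A x0 B f ζ := by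
        intro ξ hξ i _
        rw [Finset.sum_eq_single ((qpoin_nx A x0 B)^[i] ξ)]
        · rw [if_pos rfl, one_mul]
        · intro ζ _ hne
          rw [if_neg (fun h => hne h.symm), zero_mul]
        · intro hc
          exact absurd (qpoin_XW_it hAB.le hB hξ i) hc
      have e2 : ∀ ξ ∈ XW A x0 B η0, pw r l A x0 B ξ *
          (L * ∑ i ∈ Finset.range L, qpoin_g A x0 B f ((qpoin_nx A x0 B)^[i] ξ))
          = ∑ ζ ∈ XW A x0 B η0, L * (qpoin_g A x0 B f ζ * (pw r l A x0 B ξ *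
          ∑ i ∈ Finset.range L, (if (qpoin_nx A x0 B)^[i] ξ = ζ then (1 : ℝ) else 0))) := by
        intro ξ hξ
        rw [Finset.sum_congr rfl (fun i hi => e1 ξ hξ i hi), Finset.sum_comm, Finset.mul_sum,
          Finset.mul_sum]
        apply Finset.sum_congr rfl
        intro ζ _
        rw [← Finset.sum_mul]
        ring
      rw [Finset.sum_congr rfl e2, Finset.sum_comm, Finset.mul_sum]
      apply Finset.sum_congr rfl
      intro ζ _
      rw [Finset.mul_sum, Finset.mul_sum]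
    set K : ℝ := (((x0 : ℝ) - A) * ((B : ℝ) - x0)) * (D ^ 2 * Real.exp Zs) with hK
    have hK0 : 0 ≤ K := by
      rw [hK]
      have i1 : 0 ≤ (x0 : ℝ) - A := by linarith
      have i2 : 0 ≤ (B : ℝ) - x0 := by linarith
      positivity
    have h3 : ∑ ζ ∈ XW A x0 B η0, qpoin_g A x0 B f ζ * ∑ ξ ∈ XW A x0 B η0, pw r l A x0 B ξ *
          ∑ i ∈ Finset.range L, (if (qpoin_nx A x0 B)^[i] ξ = ζ then (1 : ℝ) else 0) ≤
        ∑ ζ ∈ XW A x0 B η0, K * (pw r l A x0 B ζ * qpoin_g A x0 B f ζ) := by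
      apply Finset.sum_le_sum
      intro ζ _
      by_cases hu : QUns A x0 B ζ
      · have := mul_le_mul_of_nonneg_left (qpoin_desc ha hl hA hB hD hDR hZ η0 L hu)
          (qpoin_g_nonneg A x0 B f ζ)
        refine this.trans (le_of_eq ?_)
        rw [hK]
        ring
      · rw [qpoin_g_zero f hu]
        simp
    have h4 : ∀ ζ ∈ XW A x0 B η0, pw r l A x0 B ζ * qpoin_g A x0 B f ζ ≤
        (2 * N / rmin) * ∑ b ∈ Finset.Ioo A B,
          pw r l A x0 B ζ * (r b / (2 * N)) * (f (Rm b ζ) - f ζ) ^ 2 := by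
      intro ζ _
      have e1 := mul_le_mul_of_nonneg_left (qpoin_g_le hB f ζ (A := A) (x0 := x0)) (hpw ζ).le
      refine e1.trans ?_
      rw [Finset.mul_sum, Finset.mul_sum]
      apply Finset.sum_le_sum
      intro b hb
      rw [Finset.mem_Ioo] at hb
      have hrb := hr b hb.1 hb.2
      have e2 : (2 * N / rmin) * (pw r l A x0 B ζ * (r b / (2 * N)) * (f (Rm b ζ) - f ζ) ^ 2)
          = (r b / rmin) * (pw r l A x0 B ζ * (f (Rm b ζ) - f ζ) ^ 2) := by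
        field_simp
      rw [e2]
      have e3 : 1 ≤ r b / rmin := by
        rw [le_div_iff₀ hrmin]
        linarith
      have e4 : 0 ≤ pw r l A x0 B ζ * (f (Rm b ζ) - f ζ) ^ 2 := mul_nonneg (hpw ζ).le (sq_nonneg _)
      nlinarith
    have hE : 0 ≤ ∑ η ∈ XW A x0 B η0, ∑ b ∈ Finset.Ioo A B,
      pw r l A x0 B η * (r b / (2 * N)) * (f (Rm b η) - f η) ^ 2 := by
      apply Finset.sum_nonneg
      intro η _
      apply Finset.sum_nonneg
      intro b hb
      rw [Finset.mem_Ioo] at hb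
      have hrb := hr b hb.1 hb.2
      have : 0 ≤ r b := by linarith
      have := (hpw η).le
      positivity
    set E := ∑ η ∈ XW A x0 B η0, ∑ b ∈ Finset.Ioo A B,
      pw r l A x0 B η * (r b / (2 * N)) * (f (Rm b η) - f η) ^ 2 with hEdef
    have h5 : ∑ ζ ∈ XW A x0 B η0, K * (pw r l A x0 B ζ * qpoin_g A x0 B f ζ) ≤
        K * ((2 * N / rmin) * E) := by
      rw [← Finset.mul_sum]
      apply mul_le_mul_of_nonneg_left _ hK0
      rw [hEdef, Finset.mul_sum]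
      exact Finset.sum_le_sum h4
    have h6 : ∑ η ∈ XW A x0 B η0, pw r l A x0 B η * f η ^ 2 ≤ L * (K * ((2 * N / rmin) * E)) := by
      refine h1.trans ?_
      rw [h2]
      exact mul_le_mul_of_nonneg_left (h3.trans h5) (Nat.cast_nonneg _)
    refine h6.trans ?_
    rw [hLR, hK]
    have i1 : 0 ≤ (x0 : ℝ) - A := by linarith
    have i2 : 0 ≤ (B : ℝ) - x0 := by linarith
    have i3 : ((x0 : ℝ) - A) * ((B : ℝ) - x0) ≤ 8 * ((B : ℝ) - A) ^ 2 := by nlinarith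
    have i4 : 0 ≤ ((B : ℝ) - A) ^ 2 * (D ^ 2 * Real.exp Zs * (2 * N / rmin) * E) := by positivity
    calc ((B : ℝ) - A) ^ 2 * (((x0 : ℝ) - A) * ((B : ℝ) - x0) * (D ^ 2 * Real.exp Zs) *
          (2 * N / rmin * E))
        = (((x0 : ℝ) - A) * ((B : ℝ) - x0)) *
          (((B : ℝ) - A) ^ 2 * (D ^ 2 * Real.exp Zs * (2 * N / rmin) * E)) := by ring
      _ ≤ (8 * ((B : ℝ) - A) ^ 2) *
          (((B : ℝ) - A) ^ 2 * (D ^ 2 * Real.exp Zs * (2 * N / rmin) * E)) :=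
          mul_le_mul_of_nonneg_right i3 i4
      _ = 8 * ((B : ℝ) - A) ^ 4 * D ^ 2 * Real.exp Zs * (2 * N) / rmin * E := by ring
  · -- `x0 = N = B`
    have hxB : x0 = B := by omega
    have hBN : B = N := by omega
    have h0 : ∑ η ∈ XW A x0 B η0, pw r l A x0 B η * f η ^ 2 = 0 := by
      apply Finset.sum_eq_zero
      intro η hη
      have hc := (qpoin_XW_iff.1 hη).1
      have hs : η ∈ (sorted A x0 x0 B : Set (Cfg N)) := by
        apply qpoin_sorted hA hx hc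
        rintro ⟨y, z, hp⟩
        have := hp.2.2.2.2.1
        have := hp.2.2.2.2.2.1
        omega
      rw [hf η hs]
      ring
    rw [h0]
    apply mul_nonneg
    · positivity
    · apply Finset.sum_nonneg
      intro η hη
      have hc := (qpoin_XW_iff.1 hη).1
      apply Finset.sum_nonneg
      intro b hb
      rw [Finset.mem_Ioo] at hb
      have hrb := hr b hb.1 hb.2
      have hr0 : 0 ≤ r b := by linarith
      have hp0 : 0 ≤ pw r l A x0 B η := by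
        rw [qpoin_pw]
        have hz : ∀ i, A ≤ i → i < x0 → occ η i = false := by
          intro i i1 i2
          by_contra hh
          have := qpoin_cnt_pos i1 (show i < B by omega) (show occ η i = true by simpa using hh)
          omega
        rw [qpoin_wP_triv r l x0 hz, one_mul]
        exact (qpoin_wQ_pos ha hl hB η).le
      positivity

end Pool.Agent.Helper98.EX
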