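import Pool.Agent.Helper98.EX.Stmts

/-! # QPOIN, part a: the canonical path -/

set_option autoImplicit false

namespace Pool.Agent.Helper98.EX

open Finset

variable {N : ℕ}

/-- innermost misplaced pair -/
def QPiv (A x0 B : ℕ) (η : Cfg N) (y z : ℕ) : Prop :=
  A ≤ y ∧ y < x0 ∧ occ η y = true ∧ (∀ i, y < i → i < x0 → occ η i = false) ∧
  x0 ≤ z ∧ z < B ∧ occ η z = false ∧ (∀ j, x0 ≤ j → j < z → occ η j = true)

theorem qpoin_uniq {A x0 B : ℕ} {η : Cfg N} {y z y' z' : ℕ} (h : QPiv A x0 B η y z)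
    (h' : QPiv A x0 B η y' z') : y = y' ∧ z = z' := by
  obtain ⟨_, h2, h3, h4, h5, _, h7, h8⟩ := h
  obtain ⟨_, k2, k3, k4, k5, _, k7, k8⟩ := h'
  constructor
  · rcases lt_trichotomy y y' with g | g | g
    · rw [h4 y' g k2] at k3
      exact absurd k3 (by simp)
    · exact g
    · rw [k4 y g h2] at h3
      exact absurd h3 (by simp)
  · rcases lt_trichotomy z z' with g | g | g
    · rw [k8 z h5 g] at h7
      exact absurd h7 (by simp)
    · exact g
    · rw [h8 z' k5 g] at k7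
      exact absurd k7 (by simp)

/-- the bond used at the state with innermost pair `y,z` -/
def qpoin_b (x0 y z : ℕ) : ℕ := if y + 1 < x0 then y + 1 else z

open Classical in
/-- one step of the canonical path -/
noncomputable def qpoin_nx (A x0 B : ℕ) (η : Cfg N) : Cfg N :=
  if h : ∃ w : ℕ × ℕ, QPiv A x0 B η w.1 w.2 then Rm (qpoin_b x0 h.choose.1 h.choose.2) η else η

theorem qpoin_nx_eq {A x0 B : ℕ} {η : Cfg N} {y z : ℕ} (h : QPiv A x0 B η y z) :
    qpoin_nx A x0 B η = Rm (qpoin_b x0 y z) η := by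
  have hex : ∃ w : ℕ × ℕ, QPiv A x0 B η w.1 w.2 := ⟨(y, z), h⟩
  unfold qpoin_nx
  rw [dif_pos hex]
  have := qpoin_uniq h hex.choose_spec
  rw [← this.1, ← this.2]

/-- unsorted -/
def QUns (A x0 B : ℕ) (η : Cfg N) : Prop := ∃ y z, QPiv A x0 B η y z

theorem qpoin_nx_ne {A x0 B : ℕ} {η : Cfg N} (h : ¬ QUns A x0 B η) :
    qpoin_nx A x0 B η = η := by
  unfold qpoin_nx
  rw [dif_neg]
  rintro ⟨w, hw⟩
  exact h ⟨_, _, hw⟩

/-- occupation after the step -/
theorem qpoin_occ {A x0 B : ℕ} (hB : B ≤ N) {η : Cfg N} {y z : ℕ} (h : QPiv A x0 B η y z) :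
    A < qpoin_b x0 y z ∧ qpoin_b x0 y z < B ∧ occ η (qpoin_b x0 y z - 1) = true ∧
    occ η (qpoin_b x0 y z) = false ∧
    ∀ i, occ (qpoin_nx A x0 B η) i = if i = qpoin_b x0 y z then true
      else if i + 1 = qpoin_b x0 y z then false else occ η i := by
  rw [qpoin_nx_eq h]
  obtain ⟨h1, h2, h3, h4, h5, h6, h7, h8⟩ := h
  have hb : A < qpoin_b x0 y z ∧ qpoin_b x0 y z < B ∧ occ η (qpoin_b x0 y z - 1) = true ∧
    occ η (qpoin_b x0 y z) = false := by
    unfold qpoin_b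
    split_ifs with g
    · refine ⟨by omega, by omega, ?_, h4 _ (by omega) g⟩
      rw [Nat.add_sub_cancel]
      exact h3
    · refine ⟨by omega, h6, ?_, h7⟩
      rcases Nat.lt_or_ge x0 z with k | k
      · exact h8 _ (by omega) (by omega)
      · have : z - 1 = y := by omega
        rw [this]
        exact h3
  refine ⟨hb.1, hb.2.1, hb.2.2.1, hb.2.2.2, fun i => ?_⟩
  have hc : 1 ≤ qpoin_b x0 y z ∧ qpoin_b x0 y z < N ∧ occ η (qpoin_b x0 y z - 1) = true ∧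
      occ η (qpoin_b x0 y z) = false := ⟨by omega, by omega, hb.2.2.1, hb.2.2.2⟩
  unfold Rm
  rw [if_pos hc, occ_swp hc.1 hc.2.1, hc.2.2.1, hc.2.2.2]

/-- existence of the innermost pair -/
theorem qpoin_exP {A x0 : ℕ} {η : Cfg N} (h : ∃ i, A ≤ i ∧ i < x0 ∧ occ η i = true) :
    ∃ y, A ≤ y ∧ y < x0 ∧ occ η y = true ∧ ∀ i, y < i → i < x0 → occ η i = false := by
  classical
  obtain ⟨i, h1, h2, h3⟩ := h
  have hne : ((Finset.Ico A x0).filter (fun i => occ η i = true)).Nonempty :=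
    ⟨i, by rw [Finset.mem_filter, Finset.mem_Ico]; exact ⟨⟨h1, h2⟩, h3⟩⟩
  have hm := Finset.max'_mem _ hne
  rw [Finset.mem_filter, Finset.mem_Ico] at hm
  refine ⟨_, hm.1.1, hm.1.2, hm.2, fun j hj1 hj2 => ?_⟩
  by_contra hc
  have hc' : occ η j = true := by simpa using hc
  have := Finset.le_max' ((Finset.Ico A x0).filter (fun i => occ η i = true)) j
    (by rw [Finset.mem_filter, Finset.mem_Ico]; exact ⟨⟨by omega, hj2⟩, hc'⟩)
  omega

theorem qpoin_exQ {x0 B : ℕ} {η : Cfg N} (h : ∃ i, x0 ≤ i ∧ i < B ∧ occ η i = false) :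
    ∃ z, x0 ≤ z ∧ z < B ∧ occ η z = false ∧ ∀ j, x0 ≤ j → j < z → occ η j = true := by
  classical
  obtain ⟨i, h1, h2, h3⟩ := h
  have hne : ((Finset.Ico x0 B).filter (fun i => occ η i = false)).Nonempty :=
    ⟨i, by rw [Finset.mem_filter, Finset.mem_Ico]; exact ⟨⟨h1, h2⟩, h3⟩⟩
  have hm := Finset.min'_mem _ hne
  rw [Finset.mem_filter, Finset.mem_Ico] at hm
  refine ⟨_, hm.1.1, hm.1.2, hm.2, fun j hj1 hj2 => ?_⟩
  by_contra hc
  have hc' : occ η j = false := by simpa using hc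
  have := Finset.min'_le ((Finset.Ico x0 B).filter (fun i => occ η i = false)) j
    (by rw [Finset.mem_filter, Finset.mem_Ico]; exact ⟨⟨hj1, by omega⟩, hc'⟩)
  omega

theorem qpoin_cnt_le (η : Cfg N) (a b : ℕ) : cnt η a b ≤ b - a := by
  unfold cnt
  calc ∑ i ∈ Finset.Ico a b, (if occ η i = true then 1 else 0) ≤ ∑ i ∈ Finset.Ico a b, 1 := by
        apply Finset.sum_le_sum
        intro i _
        split_ifs <;> omega
    _ = b - a := by simp

theorem qpoin_cnt_lt {η : Cfg N} {a b i : ℕ} (h1 : a ≤ i) (h2 : i < b) (h3 : occ η i = false) :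
    cnt η a b < b - a := by
  unfold cnt
  calc ∑ i ∈ Finset.Ico a b, (if occ η i = true then 1 else 0) < ∑ i ∈ Finset.Ico a b, 1 := by
        apply Finset.sum_lt_sum
        · intro i _
          split_ifs <;> omega
        · refine ⟨i, Finset.mem_Ico.2 ⟨h1, h2⟩, ?_⟩
          rw [h3]
          simp
    _ = b - a := by simp

theorem qpoin_cnt_pos {η : Cfg N} {a b i : ℕ} (h1 : a ≤ i) (h2 : i < b) (h3 : occ η i = true) :
    0 < cnt η a b := by
  unfold cnt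
  apply Finset.sum_pos'
  · intro i _
    exact Nat.zero_le _
  · refine ⟨i, Finset.mem_Ico.2 ⟨h1, h2⟩, ?_⟩
    rw [h3]
    simp

theorem qpoin_cnt_zero {η : Cfg N} {a b : ℕ} (h : ∀ i, a ≤ i → i < b → occ η i = false) :
    cnt η a b = 0 := by
  unfold cnt
  apply Finset.sum_eq_zero
  intro i hi
  rw [Finset.mem_Ico] at hi
  rw [h i hi.1 hi.2]
  simp

theorem qpoin_cnt_all {η : Cfg N} {a b : ℕ} (h : ∀ i, a ≤ i → i < b → occ η i = true) :
    cnt η a b = b - a := by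
  unfold cnt
  rw [Finset.sum_congr rfl (g := fun _ => 1)]
  · simp
  · intro i hi
    rw [Finset.mem_Ico] at hi
    rw [h i hi.1 hi.2]
    simp

theorem qpoin_cnt_add (η : Cfg N) {a b c : ℕ} (h1 : a ≤ b) (h2 : b ≤ c) :
    cnt η a c = cnt η a b + cnt η b c := by
  unfold cnt
  rw [Finset.sum_Ico_consecutive _ h1 h2]

/-- a balanced state which is not unsorted is sorted -/
theorem qpoin_sorted {A x0 B : ℕ} (hA : A ≤ x0) (hx : x0 ≤ B) {η : Cfg N}
    (hc : cnt η A B = B - x0) (h : ¬ QUns A x0 B η) : η ∈ (sorted A x0 x0 B : Set (Cfg N)) := by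
  have hadd := qpoin_cnt_add η hA hx
  have key : ¬ ((∃ i, A ≤ i ∧ i < x0 ∧ occ η i = true) ∧ (∃ i, x0 ≤ i ∧ i < B ∧ occ η i = false)) := by
    rintro ⟨hP, hQ⟩
    obtain ⟨y, y1, y2, y3, y4⟩ := qpoin_exP hP
    obtain ⟨z, z1, z2, z3, z4⟩ := qpoin_exQ hQ
    exact h ⟨y, z, y1, y2, y3, y4, z1, z2, z3, z4⟩
  have hP : ¬ ∃ i, A ≤ i ∧ i < x0 ∧ occ η i = true := by
    intro hP
    have hQ : ¬ ∃ i, x0 ≤ i ∧ i < B ∧ occ η i = false := fun hQ => key ⟨hP, hQ⟩
    have h1 : cnt η x0 B = B - x0 := by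
      apply qpoin_cnt_all
      intro i i1 i2
      by_contra hh
      exact hQ ⟨i, i1, i2, by simpa using hh⟩
    obtain ⟨i, i1, i2, i3⟩ := hP
    have h2 := qpoin_cnt_pos i1 i2 i3
    omega
  have hQ : ¬ ∃ i, x0 ≤ i ∧ i < B ∧ occ η i = false := by
    rintro ⟨i, i1, i2, i3⟩
    have h1 : cnt η A x0 = 0 := by
      apply qpoin_cnt_zero
      intro j j1 j2
      by_contra hh
      exact hP ⟨j, j1, j2, by simpa using hh⟩
    have h2 := qpoin_cnt_lt i1 i2 i3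
    omega
  refine ⟨fun i i1 i2 => ?_, fun i i1 i2 => ?_⟩
  · by_contra hh
    exact hP ⟨i, i1, i2, by simpa using hh⟩
  · by_contra hh
    exact hQ ⟨i, i1, i2, by simpa using hh⟩

/-! ### marks preserve the window state space -/

theorem qpoin_cnt_Rm (η : Cfg N) {A B b : ℕ} (hAB : A ≤ B) (hB : B ≤ N) (h1 : A < b) (h2 : b < B) :
    cnt (Rm b η) A B = cnt η A B := by
  have e1 := ht_cnt η hAB hB
  have e2 := ht_cnt (Rm b η) hAB hB
  rw [ht_Rm_ne η (by omega), ht_Rm_ne η (by omega)] at e2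
  omega

theorem qpoin_Rm_out (η : Cfg N) {b i : ℕ} (h1 : i ≠ b) (h2 : i + 1 ≠ b) :
    occ (Rm b η) i = occ η i := by
  unfold Rm
  split_ifs with h
  · exact occ_swp_ne h.1 h.2.1 η h1 h2
  · rfl

theorem qpoin_XW_iff {A x0 B : ℕ} {η0 η : Cfg N} : η ∈ XW A x0 B η0 ↔ cnt η A B = B - x0 ∧
    ∀ i < N, (i < A ∨ B ≤ i) → occ η i = occ η0 i := by
  unfold XW
  rw [Finset.mem_filter]
  simp only [Finset.mem_univ, true_and, Finset.mem_range]

theorem qpoin_XW_Rm {A x0 B b : ℕ} (hAB : A ≤ B) (hB : B ≤ N) (h1 : A < b) (h2 : b < B)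
    {η0 η : Cfg N} (h : η ∈ XW A x0 B η0) : Rm b η ∈ XW A x0 B η0 := by
  rw [qpoin_XW_iff] at h ⊢
  refine ⟨by rw [qpoin_cnt_Rm η hAB hB h1 h2, h.1], fun i hi hi2 => ?_⟩
  rw [qpoin_Rm_out η (by omega) (by omega)]
  exact h.2 i hi hi2

theorem qpoin_XW_nx {A x0 B : ℕ} (hAB : A ≤ B) (hB : B ≤ N)
    {η0 η : Cfg N} (h : η ∈ XW A x0 B η0) : qpoin_nx A x0 B η ∈ XW A x0 B η0 := by
  by_cases hu : QUns A x0 B η
  · obtain ⟨y, z, hp⟩ := hu
    have ho := qpoin_occ hB hp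
    rw [qpoin_nx_eq hp]
    exact qpoin_XW_Rm hAB hB ho.1 ho.2.1 h
  · rw [qpoin_nx_ne hu]
    exact h

/-! ### potential -/

/-- potential -/
def qpoin_F (A B : ℕ) (η : Cfg N) : ℕ := ∑ x ∈ Finset.Ioo A B, cnt η x B

theorem qpoin_F_le (A B : ℕ) (η : Cfg N) : qpoin_F A B η ≤ (B - A - 1) * (B - A) := by
  unfold qpoin_F
  calc ∑ x ∈ Finset.Ioo A B, cnt η x B ≤ ∑ x ∈ Finset.Ioo A B, (B - A) := by
        apply Finset.sum_le_sum
        intro x hx
        rw [Finset.mem_Ioo] at hx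
        exact (qpoin_cnt_le η x B).trans (by omega)
    _ = (B - A - 1) * (B - A) := by simp

theorem qpoin_F_nx {A x0 B : ℕ} (hB : B ≤ N) {η : Cfg N} (h : QUns A x0 B η) :
    qpoin_F A B (qpoin_nx A x0 B η) = qpoin_F A B η + 1 := by
  obtain ⟨y, z, hp⟩ := h
  obtain ⟨b1, b2, b3, b4, b5⟩ := qpoin_occ hB hp
  rw [qpoin_nx_eq hp]
  set b := qpoin_b x0 y z with hb
  unfold qpoin_F
  have hmem : b ∈ Finset.Ioo A B := Finset.mem_Ioo.2 ⟨b1, b2⟩
  rw [← Finset.add_sum_erase _ _ hmem, ← Finset.add_sum_erase (Finset.Ioo A B) _ hmem]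
  have h1 : ∑ x ∈ (Finset.Ioo A B).erase b, cnt (Rm b η) x B
      = ∑ x ∈ (Finset.Ioo A B).erase b, cnt η x B := by
    apply Finset.sum_congr rfl
    intro x hx
    rw [Finset.mem_erase, Finset.mem_Ioo] at hx
    have e1 := ht_cnt η (show x ≤ B by omega) hB
    have e2 := ht_cnt (Rm b η) (show x ≤ B by omega) hB
    rw [ht_Rm_ne η hx.1, ht_Rm_ne η (by omega)] at e2
    omega
  have h2 : cnt (Rm b η) b B = cnt η b B + 1 := by
    have e1 := ht_cnt η (show b ≤ B by omega) hB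
    have e2 := ht_cnt (Rm b η) (show b ≤ B by omega) hB
    rw [ht_Rm_ne η (show B ≠ b by omega), ht_Rm η (by omega) (by omega)] at e2
    have e3 := (occ_iff_ht η (show b - 1 < N by omega)).1 b3
    have e4 := (not_occ_iff_ht η (show b < N by omega)).1 b4
    have e5 : b - 1 + 1 = b := by omega
    rw [e5] at e3
    omega
  rw [h1, h2]
  ring

theorem qpoin_uns_nx {A x0 B : ℕ} {η : Cfg N} (h : QUns A x0 B (qpoin_nx A x0 B η)) :
    QUns A x0 B η := by
  by_contra hc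
  rw [qpoin_nx_ne hc] at h
  exact hc h

theorem qpoin_F_it {A x0 B : ℕ} (hB : B ≤ N) (ξ : Cfg N) (i : ℕ)
    (h : QUns A x0 B ((qpoin_nx A x0 B)^[i] ξ)) :
    qpoin_F A B ((qpoin_nx A x0 B)^[i] ξ) = qpoin_F A B ξ + i := by
  induction i with
  | zero => rfl
  | succ i ih =>
    rw [Function.iterate_succ_apply'] at h ⊢
    have h1 := qpoin_uns_nx h
    rw [qpoin_F_nx hB h1, ih h1]
    ring

theorem qpoin_XW_it {A x0 B : ℕ} (hAB : A ≤ B) (hB : B ≤ N)
    {η0 η : Cfg N} (h : η ∈ XW A x0 B η0) (i : ℕ) :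
    (qpoin_nx A x0 B)^[i] η ∈ XW A x0 B η0 := by
  induction i with
  | zero => exact h
  | succ i ih =>
    rw [Function.iterate_succ_apply']
    exact qpoin_XW_nx hAB hB ih

theorem qpoin_end {A x0 B : ℕ} (hA : A ≤ x0) (hx : x0 ≤ B) (hAB : A < B) (hB : B ≤ N)
    {η0 η : Cfg N} (h : η ∈ XW A x0 B η0) :
    (qpoin_nx A x0 B)^[(B - A) * (B - A)] η ∈ (sorted A x0 x0 B : Set (Cfg N)) := by
  apply qpoin_sorted hA hx
  · exact (qpoin_XW_iff.1 (qpoin_XW_it hAB.le hB h _)).1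
  · intro hu
    have h1 := qpoin_F_it hB η _ hu
    have h2 := qpoin_F_le A B ((qpoin_nx A x0 B)^[(B - A) * (B - A)] η)
    rw [h1] at h2
    have h3 : (B - A - 1) * (B - A) < (B - A) * (B - A) :=
      Nat.mul_lt_mul_of_pos_right (by omega) (by omega)
    omega

end Pool.Agent.Helper98.EX
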