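import Pool.Agent.Helper35.EX.QPOINa

/-! # QPOIN, part b: descendants of a state and their weights -/

set_option autoImplicit false

namespace Pool.Agent.Helper98.EX

open Finset

variable {N : ℕ}

/-- `ζ` is on the path of `ξ`, the pair in transit being `p,q` in `ξ` -/
def QRel (A x0 B : ℕ) (p q : ℕ) (ξ ζ : Cfg N) : Prop :=
  ∃ y z, QPiv A x0 B ζ y z ∧ A ≤ p ∧ p ≤ y ∧ z ≤ q ∧ q < B ∧ occ ξ p = true ∧ occ ξ q = false ∧
    (∀ i, A ≤ i → i < p → occ ζ i = occ ξ i) ∧ (∀ i, p ≤ i → i < y → occ ζ i = false) ∧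
    (∀ j, q < j → j < B → occ ζ j = occ ξ j) ∧ (∀ j, z < j → j ≤ q → occ ζ j = true)

theorem qpoin_rel_zero {A x0 B : ℕ} {ξ : Cfg N} (h : QUns A x0 B ξ) : ∃ p q, QRel A x0 B p q ξ ξ := by
  obtain ⟨y, z, hp⟩ := h
  refine ⟨y, z, y, z, hp, hp.1, le_refl _, le_refl _, hp.2.2.2.2.2.1, hp.2.2.1, hp.2.2.2.2.2.2.1,
    fun _ _ _ => rfl, fun i h1 h2 => by omega, fun _ _ _ => rfl, fun i h1 h2 => by omega⟩

theorem qpoin_rel_step {A x0 B : ℕ} (hB : B ≤ N) {p q : ℕ} {ξ ζ : Cfg N}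
    (h : QRel A x0 B p q ξ ζ) (hu : QUns A x0 B (qpoin_nx A x0 B ζ)) :
    ∃ p' q', QRel A x0 B p' q' ξ (qpoin_nx A x0 B ζ) := by
  obtain ⟨y, z, hp, e1, e2, e3, e4, e5, e6, e7, e8, e9, e10⟩ := h
  have ho := (qpoin_occ hB hp).2.2.2.2
  obtain ⟨h1, h2, h3, h4, h5, h6, h7, h8⟩ := hp
  by_cases c1 : y + 1 < x0
  · have hb : qpoin_b x0 y z = y + 1 := by
      unfold qpoin_b
      rw [if_pos c1]
    rw [hb] at ho
    refine ⟨p, q, y + 1, z, ⟨by omega, c1, ?_, ?_, h5, h6, ?_, ?_⟩, e1, by omega, e3, e4, e5, e6, ?_, ?_,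
      ?_, ?_⟩
    · rw [ho, if_pos rfl]
    · intro i i1 i2
      rw [ho, if_neg (by omega), if_neg (by omega)]
      exact h4 i (by omega) i2
    · rw [ho, if_neg (by omega), if_neg (by omega)]
      exact h7
    · intro j j1 j2
      rw [ho, if_neg (by omega), if_neg (by omega)]
      exact h8 j j1 j2
    · intro i i1 i2
      rw [ho, if_neg (by omega), if_neg (by omega)]
      exact e7 i i1 i2
    · intro i i1 i2
      rw [ho, if_neg (by omega)]
      split_ifs with c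
      · rfl
      · exact e8 i i1 (by omega)
    · intro j j1 j2
      rw [ho, if_neg (by omega), if_neg (by omega)]
      exact e9 j j1 j2
    · intro j j1 j2
      rw [ho, if_neg (by omega), if_neg (by omega)]
      exact e10 j j1 j2
  · have hb : qpoin_b x0 y z = z := by
      unfold qpoin_b
      rw [if_neg c1]
    rw [hb] at ho
    by_cases c2 : x0 < z
    · refine ⟨p, q, y, z - 1, ⟨h1, h2, ?_, ?_, by omega, by omega, ?_, ?_⟩, e1, e2, by omega, e4, e5, e6,
        ?_, ?_, ?_, ?_⟩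
      · rw [ho, if_neg (by omega), if_neg (by omega)]
        exact h3
      · intro i i1 i2
        omega
      · rw [ho, if_neg (by omega), if_pos (by omega)]
      · intro j j1 j2
        rw [ho, if_neg (by omega), if_neg (by omega)]
        exact h8 j j1 (by omega)
      · intro i i1 i2
        rw [ho, if_neg (by omega), if_neg (by omega)]
        exact e7 i i1 i2
      · intro i i1 i2
        rw [ho, if_neg (by omega), if_neg (by omega)]
        exact e8 i i1 i2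
      · intro j j1 j2
        rw [ho, if_neg (by omega), if_neg (by omega)]
        exact e9 j j1 j2
      · intro j j1 j2
        rw [ho]
        split_ifs with c c'
        · rfl
        · omega
        · exact e10 j (by omega) j2
    · have hz : z = x0 := by omega
      obtain ⟨y2, z2, hp2⟩ := hu
      obtain ⟨k1, k2, k3, k4, k5, k6, k7, k8⟩ := hp2
      have hy2 : y2 < y := by
        rw [ho, if_neg (by omega)] at k3
        by_contra hc
        have : y2 = y := by omega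
        rw [if_pos (by omega)] at k3
        exact absurd k3 (by simp)
      have hy2o : occ ζ y2 = true := by
        rw [ho, if_neg (by omega), if_neg (by omega)] at k3
        exact k3
      have hy2p : y2 < p := by
        by_contra hc
        rw [e8 y2 (by omega) hy2] at hy2o
        exact absurd hy2o (by simp)
      have hz2 : z < z2 := by
        rw [ho] at k7
        by_contra hc
        have : z2 = z := by omega
        rw [if_pos this] at k7
        exact absurd k7 (by simp)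
      have hz2o : occ ζ z2 = false := by
        rw [ho, if_neg (by omega), if_neg (by omega)] at k7
        exact k7
      have hz2q : q < z2 := by
        by_contra hc
        rw [e10 z2 hz2 (by omega)] at hz2o
        exact absurd hz2o (by simp)
      refine ⟨y2, z2, y2, z2, ⟨k1, k2, k3, k4, k5, k6, k7, k8⟩, k1, le_refl _, le_refl _, k6, ?_, ?_,
        ?_, ?_, ?_, ?_⟩
      · rw [← e7 y2 k1 hy2p]
        exact hy2o
      · rw [← e9 z2 hz2q k6]
        exact hz2o
      · intro i i1 i2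
        rw [ho, if_neg (by omega), if_neg (by omega)]
        exact e7 i i1 (by omega)
      · intro i i1 i2
        omega
      · intro j j1 j2
        rw [ho, if_neg (by omega), if_neg (by omega)]
        exact e9 j (by omega) j2
      · intro j j1 j2
        omega

theorem qpoin_rel_it {A x0 B : ℕ} (hB : B ≤ N) (ξ : Cfg N) (i : ℕ)
    (h : QUns A x0 B ((qpoin_nx A x0 B)^[i] ξ)) :
    ∃ p q, QRel A x0 B p q ξ ((qpoin_nx A x0 B)^[i] ξ) := by
  induction i with
  | zero => exact qpoin_rel_zero h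
  | succ i ih =>
    rw [Function.iterate_succ_apply'] at h ⊢
    obtain ⟨p, q, hr⟩ := ih (qpoin_uns_nx h)
    exact qpoin_rel_step hB hr h

/-! ### weights -/

/-- weight of the misplaced particles in `[a,b)` -/
noncomputable def qpoin_wP (r l : ℕ → ℝ) (x0 a b : ℕ) (η : Cfg N) : ℝ :=
  ∏ i ∈ Finset.Ico a b, (if occ η i = true then RR r l i x0 else 1)

/-- weight of the misplaced holes in `[a,b)` -/
noncomputable def qpoin_wQ (r l : ℕ → ℝ) (x0 a b : ℕ) (η : Cfg N) : ℝ :=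
  ∏ i ∈ Finset.Ico a b, (if occ η i = true then 1 else RR r l x0 i)

theorem qpoin_pw (r l : ℕ → ℝ) (A x0 B : ℕ) (η : Cfg N) :
    pw r l A x0 B η = qpoin_wP r l x0 A x0 η * qpoin_wQ r l x0 x0 B η := rfl

section weights

variable {r l : ℕ → ℝ}

theorem qpoin_RR_pos (ha : Adm N r l) (hl : Pos N l) {z x : ℕ} (hx : x < N) : 0 < RR r l z x := by
  unfold RR
  apply Finset.prod_pos
  intro b hb
  rw [Finset.mem_Ioc] at hb
  exact div_pos (hl b (by omega) (by omega)) (ha b (by omega) (by omega)).1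

theorem qpoin_RR_mul (r l : ℕ → ℝ) {a b c : ℕ} (h1 : a ≤ b) (h2 : b ≤ c) :
    RR r l a c = RR r l a b * RR r l b c := by
  unfold RR
  rw [Finset.prod_Ioc_consecutive _ h1 h2]

theorem qpoin_wP_pos (ha : Adm N r l) (hl : Pos N l) {x0 a b : ℕ} (hx : x0 < N) (η : Cfg N) :
    0 < qpoin_wP r l x0 a b η := by
  unfold qpoin_wP
  apply Finset.prod_pos
  intro i _
  split_ifs
  · exact qpoin_RR_pos ha hl hx
  · exact one_pos

theorem qpoin_wQ_pos (ha : Adm N r l) (hl : Pos N l) {x0 a b : ℕ} (hb : b ≤ N) (η : Cfg N) :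
    0 < qpoin_wQ r l x0 a b η := by
  unfold qpoin_wQ
  apply Finset.prod_pos
  intro i hi
  rw [Finset.mem_Ico] at hi
  split_ifs
  · exact one_pos
  · exact qpoin_RR_pos ha hl (by omega)

theorem qpoin_wP_split (r l : ℕ → ℝ) (x0 : ℕ) {a b c : ℕ} (h1 : a ≤ b) (h2 : b ≤ c) (η : Cfg N) :
    qpoin_wP r l x0 a c η = qpoin_wP r l x0 a b η * qpoin_wP r l x0 b c η := by
  unfold qpoin_wP
  rw [Finset.prod_Ico_consecutive _ h1 h2]

theorem qpoin_wQ_split (r l : ℕ → ℝ) (x0 : ℕ) {a b c : ℕ} (h1 : a ≤ b) (h2 : b ≤ c) (η : Cfg N) :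
    qpoin_wQ r l x0 a c η = qpoin_wQ r l x0 a b η * qpoin_wQ r l x0 b c η := by
  unfold qpoin_wQ
  rw [Finset.prod_Ico_consecutive _ h1 h2]

theorem qpoin_wP_one (r l : ℕ → ℝ) (x0 a : ℕ) {η : Cfg N} (h : occ η a = true) :
    qpoin_wP r l x0 a (a + 1) η = RR r l a x0 := by
  unfold qpoin_wP
  rw [Nat.Ico_succ_singleton, Finset.prod_singleton, if_pos h]

theorem qpoin_wQ_one (r l : ℕ → ℝ) (x0 a : ℕ) {η : Cfg N} (h : occ η a = false) :
    qpoin_wQ r l x0 a (a + 1) η = RR r l x0 a := by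
  unfold qpoin_wQ
  rw [Nat.Ico_succ_singleton, Finset.prod_singleton, if_neg (by rw [h]; simp)]

theorem qpoin_wP_triv (r l : ℕ → ℝ) (x0 : ℕ) {a b : ℕ} {η : Cfg N}
    (h : ∀ i, a ≤ i → i < b → occ η i = false) : qpoin_wP r l x0 a b η = 1 := by
  unfold qpoin_wP
  apply Finset.prod_eq_one
  intro i hi
  rw [Finset.mem_Ico] at hi
  rw [if_neg (by rw [h i hi.1 hi.2]; simp)]

theorem qpoin_wQ_triv (r l : ℕ → ℝ) (x0 : ℕ) {a b : ℕ} {η : Cfg N}
    (h : ∀ i, a ≤ i → i < b → occ η i = true) : qpoin_wQ r l x0 a b η = 1 := by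
  unfold qpoin_wQ
  apply Finset.prod_eq_one
  intro i hi
  rw [Finset.mem_Ico] at hi
  rw [if_pos (h i hi.1 hi.2)]

theorem qpoin_wP_congr (r l : ℕ → ℝ) (x0 : ℕ) {a b : ℕ} {η ξ : Cfg N}
    (h : ∀ i, a ≤ i → i < b → occ η i = occ ξ i) : qpoin_wP r l x0 a b η = qpoin_wP r l x0 a b ξ := by
  unfold qpoin_wP
  apply Finset.prod_congr rfl
  intro i hi
  rw [Finset.mem_Ico] at hi
  rw [h i hi.1 hi.2]

theorem qpoin_wQ_congr (r l : ℕ → ℝ) (x0 : ℕ) {a b : ℕ} {η ξ : Cfg N}
    (h : ∀ i, a ≤ i → i < b → occ η i = occ ξ i) : qpoin_wQ r l x0 a b η = qpoin_wQ r l x0 a b ξ := by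
  unfold qpoin_wQ
  apply Finset.prod_congr rfl
  intro i hi
  rw [Finset.mem_Ico] at hi
  rw [h i hi.1 hi.2]

/-- weight of a descendant -/
theorem qpoin_weight (ha : Adm N r l) (hl : Pos N l) {A x0 B : ℕ} (hB : B ≤ N) {D : ℝ} (hD : 1 ≤ D)
    (hDR : ∀ z x, A ≤ z → z ≤ x → x < B → RR r l z x ≤ D) {p q : ℕ} {ξ ζ : Cfg N}
    (h : QRel A x0 B p q ξ ζ) :
    pw r l A x0 B ξ ≤ D ^ 2 * pw r l A x0 B ζ *
      (qpoin_wP r l x0 (p + 1) x0 ξ * qpoin_wQ r l x0 x0 q ξ) := by
  obtain ⟨y, z, hp, e1, e2, e3, e4, e5, e6, e7, e8, e9, e10⟩ := h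
  obtain ⟨h1, h2, h3, h4, h5, h6, h7, h8⟩ := hp
  have hx0 : x0 < N := by omega
  have hP : qpoin_wP r l x0 A x0 ξ
      = qpoin_wP r l x0 A p ξ * (RR r l p x0 * qpoin_wP r l x0 (p + 1) x0 ξ) := by
    rw [qpoin_wP_split r l x0 e1 (show p ≤ x0 by omega), qpoin_wP_split r l x0 (show p ≤ p + 1 by omega)
      (show p + 1 ≤ x0 by omega), qpoin_wP_one r l x0 p e5]
  have hP' : qpoin_wP r l x0 A x0 ζ = qpoin_wP r l x0 A p ξ * RR r l y x0 := by
    rw [qpoin_wP_split r l x0 e1 (show p ≤ x0 by omega), qpoin_wP_split r l x0 e2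
      (show y ≤ x0 by omega), qpoin_wP_split r l x0 (show y ≤ y + 1 by omega)
      (show y + 1 ≤ x0 by omega), qpoin_wP_one r l x0 y h3, qpoin_wP_triv r l x0 e8,
      qpoin_wP_triv r l x0 (fun i i1 i2 => h4 i (by omega) i2), qpoin_wP_congr r l x0 e7]
    ring
  have hQ : qpoin_wQ r l x0 x0 B ξ
      = qpoin_wQ r l x0 x0 q ξ * (RR r l x0 q * qpoin_wQ r l x0 (q + 1) B ξ) := by
    rw [qpoin_wQ_split r l x0 (show x0 ≤ q by omega) (show q ≤ B by omega),
      qpoin_wQ_split r l x0 (show q ≤ q + 1 by omega) (show q + 1 ≤ B by omega),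
      qpoin_wQ_one r l x0 q e6]
  have hQ' : qpoin_wQ r l x0 x0 B ζ = RR r l x0 z * qpoin_wQ r l x0 (q + 1) B ξ := by
    rw [qpoin_wQ_split r l x0 (show x0 ≤ z by omega) (show z ≤ B by omega),
      qpoin_wQ_split r l x0 (show z ≤ z + 1 by omega) (show z + 1 ≤ B by omega),
      qpoin_wQ_split r l x0 (show z + 1 ≤ q + 1 by omega) (show q + 1 ≤ B by omega),
      qpoin_wQ_one r l x0 z h7, qpoin_wQ_triv r l x0 h8,
      qpoin_wQ_triv r l x0 (fun i i1 i2 => e10 i (by omega) (by omega)),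
      qpoin_wQ_congr r l x0 (fun i i1 i2 => e9 i (by omega) i2)]
    ring
  have m1 : RR r l p x0 ≤ D * RR r l y x0 := by
    rw [qpoin_RR_mul r l e2 (show y ≤ x0 by omega)]
    exact mul_le_mul_of_nonneg_right (hDR p y e1 e2 (by omega)) (qpoin_RR_pos ha hl hx0).le
  have m2 : RR r l x0 q ≤ D * RR r l x0 z := by
    rw [qpoin_RR_mul r l h5 e3, mul_comm]
    exact mul_le_mul_of_nonneg_right (hDR z q (by omega) e3 e4) (qpoin_RR_pos ha hl (by omega)).le
  rw [qpoin_pw, qpoin_pw, hP, hP', hQ, hQ']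
  have a1 := qpoin_wP_pos ha hl (a := A) (b := p) hx0 ξ
  have a2 := qpoin_wP_pos ha hl (a := p + 1) (b := x0) hx0 ξ
  have a3 := qpoin_wQ_pos ha hl (x0 := x0) (a := x0) (b := q) (show q ≤ N by omega) ξ
  have a4 := qpoin_wQ_pos ha hl (x0 := x0) (a := q + 1) (b := B) hB ξ
  have a5 := qpoin_RR_pos ha hl (z := y) hx0
  have a6 := qpoin_RR_pos ha hl (z := x0) (show z < N by omega)
  have a7 := qpoin_RR_pos ha hl (z := p) hx0
  have a8 := qpoin_RR_pos ha hl (z := x0) (show q < N by omega)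
  have m3 : RR r l p x0 * RR r l x0 q ≤ (D * RR r l y x0) * (D * RR r l x0 z) :=
    mul_le_mul m1 m2 a8.le (by positivity)
  have m4 := mul_le_mul_of_nonneg_left m3
    (show 0 ≤ qpoin_wP r l x0 A p ξ * qpoin_wP r l x0 (p + 1) x0 ξ * qpoin_wQ r l x0 x0 q ξ *
      qpoin_wQ r l x0 (q + 1) B ξ by positivity)
  calc qpoin_wP r l x0 A p ξ * (RR r l p x0 * qpoin_wP r l x0 (p + 1) x0 ξ) *
        (qpoin_wQ r l x0 x0 q ξ * (RR r l x0 q * qpoin_wQ r l x0 (q + 1) B ξ))
      = qpoin_wP r l x0 A p ξ * qpoin_wP r l x0 (p + 1) x0 ξ * qpoin_wQ r l x0 x0 q ξ *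
        qpoin_wQ r l x0 (q + 1) B ξ * (RR r l p x0 * RR r l x0 q) := by ring
    _ ≤ _ := m4
    _ = _ := by ring

/-- sum of the weights of the inner parts -/
theorem qpoin_sum_inner (ha : Adm N r l) (hl : Pos N l) {A x0 B : ℕ} (hB : B ≤ N)
    {Zs : ℝ}
    (hZ : ∑ z ∈ Finset.Ico A x0, RR r l z x0 + ∑ x ∈ Finset.Ico x0 B, RR r l x0 x ≤ Zs)
    (p q : ℕ) (hp : A ≤ p) (hx : x0 < N) (hq : q < B) (T : Finset (Cfg N)) (ζ η0 : Cfg N)
    (hT : ∀ ξ ∈ T, ξ ∈ XW A x0 B η0 ∧ QRel A x0 B p q ξ ζ) :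
    ∑ ξ ∈ T, qpoin_wP r l x0 (p + 1) x0 ξ * qpoin_wQ r l x0 x0 q ξ ≤ Real.exp Zs := by
  classical
  set F : Finset ℕ × Finset ℕ → ℝ := fun c => (∏ i ∈ c.1, RR r l i x0) * ∏ j ∈ c.2, RR r l x0 j with hF
  set enc : Cfg N → Finset ℕ × Finset ℕ := fun ξ =>
    ((Finset.Ico (p + 1) x0).filter (fun i => occ ξ i = true),
      (Finset.Ico x0 q).filter (fun i => occ ξ i = false)) with henc
  have h1 : ∀ ξ : Cfg N, qpoin_wP r l x0 (p + 1) x0 ξ * qpoin_wQ r l x0 x0 q ξ = F (enc ξ) := by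
    intro ξ
    rw [hF, henc]
    dsimp only
    rw [Finset.prod_filter, Finset.prod_filter]
    unfold qpoin_wP qpoin_wQ
    congr 1
    apply Finset.prod_congr rfl
    intro i _
    by_cases h : occ ξ i = true
    · rw [if_pos h, if_neg (by rw [h]; simp)]
    · rw [if_neg h, if_pos (by simpa using h)]
  have hinj : Set.InjOn enc (T : Set (Cfg N)) := by
    intro ξ hξ ξ' hξ' he
    obtain ⟨x1, y, z, hP, e1, e2, e3, e4, e5, e6, e7, e8, e9, e10⟩ := hT ξ hξ
    obtain ⟨x2, y', z', hP', k1, k2, k3, k4, k5, k6, k7, k8, k9, k10⟩ := hT ξ' hξ'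
    have := qpoin_uniq hP hP'
    obtain ⟨rfl, rfl⟩ := this
    rw [qpoin_XW_iff] at x1 x2
    rw [henc] at he
    simp only [Prod.mk.injEq] at he
    apply cfg_ext
    intro i hi
    by_cases c1 : i < A ∨ B ≤ i
    · rw [x1.2 i hi c1, x2.2 i hi c1]
    push Not at c1
    rcases lt_trichotomy i p with c | c | c
    · rw [← e7 i c1.1 c, ← k7 i c1.1 c]
    · rw [c, e5, k5]
    · rcases Nat.lt_or_ge i x0 with d | d
      · have hm := congrArg (fun S : Finset ℕ => i ∈ S) he.1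
        simp only [Finset.mem_filter, Finset.mem_Ico, eq_iff_iff] at hm
        by_cases o : occ ξ i = true
        · rw [o, (hm.1 ⟨⟨by omega, d⟩, o⟩).2]
        · have o' : ¬ occ ξ' i = true := fun o' => o (hm.2 ⟨⟨by omega, d⟩, o'⟩).2
          rw [Bool.eq_false_iff.2 o, Bool.eq_false_iff.2 o']
      · rcases lt_trichotomy i q with g | g | g
        · have hm := congrArg (fun S : Finset ℕ => i ∈ S) he.2
          simp only [Finset.mem_filter, Finset.mem_Ico, eq_iff_iff] at hm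
          by_cases o : occ ξ i = false
          · rw [o, (hm.1 ⟨⟨d, g⟩, o⟩).2]
          · have o' : ¬ occ ξ' i = false := fun o' => o (hm.2 ⟨⟨d, g⟩, o'⟩).2
            rw [Bool.eq_true_of_not_eq_false o, Bool.eq_true_of_not_eq_false o']
        · rw [g, e6, k6]
        · rw [← e9 i g c1.2, ← k9 i g c1.2]
  have hFnn : ∀ c ∈ (Finset.Ico (p + 1) x0).powerset ×ˢ (Finset.Ico x0 q).powerset, 0 ≤ F c := by
    intro c hc
    rw [Finset.mem_product, Finset.mem_powerset, Finset.mem_powerset] at hc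
    rw [hF]
    apply mul_nonneg
    · exact Finset.prod_nonneg fun i _ => (qpoin_RR_pos ha hl hx).le
    · apply Finset.prod_nonneg
      intro j hj
      have := Finset.mem_Ico.1 (hc.2 hj)
      exact (qpoin_RR_pos ha hl (by omega)).le
  have h2 : ∑ ξ ∈ T, F (enc ξ) ≤
      ∑ c ∈ (Finset.Ico (p + 1) x0).powerset ×ˢ (Finset.Ico x0 q).powerset, F c := by
    rw [← Finset.sum_image hinj]
    apply Finset.sum_le_sum_of_subset_of_nonneg
    · intro c hc
      rw [Finset.mem_image] at hc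
      obtain ⟨ξ, _, rfl⟩ := hc
      rw [Finset.mem_product, Finset.mem_powerset, Finset.mem_powerset]
      exact ⟨Finset.filter_subset _ _, Finset.filter_subset _ _⟩
    · intro c hc _
      exact hFnn c hc
  have h3 : ∑ c ∈ (Finset.Ico (p + 1) x0).powerset ×ˢ (Finset.Ico x0 q).powerset, F c
      = (∏ i ∈ Finset.Ico (p + 1) x0, (1 + RR r l i x0)) * ∏ j ∈ Finset.Ico x0 q, (1 + RR r l x0 j) := by
    rw [Finset.sum_product, Finset.prod_one_add, Finset.prod_one_add, Finset.sum_mul_sum]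
  have hexp : ∀ (s : Finset ℕ) (g : ℕ → ℝ), (∀ i ∈ s, 0 ≤ g i) →
      ∏ i ∈ s, (1 + g i) ≤ Real.exp (∑ i ∈ s, g i) := by
    intro s g hg
    rw [Real.exp_sum]
    apply Finset.prod_le_prod
    · intro i hi
      linarith [hg i hi]
    · intro i _
      linarith [Real.add_one_le_exp (g i)]
  rw [Finset.sum_congr rfl (fun ξ _ => h1 ξ)]
  refine h2.trans ?_
  rw [h3]
  have g1 := hexp (Finset.Ico (p + 1) x0) (fun i => RR r l i x0)
    (fun i _ => (qpoin_RR_pos ha hl hx).le)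
  have g2 := hexp (Finset.Ico x0 q) (fun j => RR r l x0 j) (fun j hj => by
    rw [Finset.mem_Ico] at hj
    exact (qpoin_RR_pos ha hl (by omega)).le)
  have g3 : ∑ i ∈ Finset.Ico (p + 1) x0, RR r l i x0 ≤ ∑ i ∈ Finset.Ico A x0, RR r l i x0 := by
    apply Finset.sum_le_sum_of_subset_of_nonneg
    · exact Finset.Ico_subset_Ico (by omega) (le_refl _)
    · intro i _ _
      exact (qpoin_RR_pos ha hl hx).le
  have g4 : ∑ j ∈ Finset.Ico x0 q, RR r l x0 j ≤ ∑ j ∈ Finset.Ico x0 B, RR r l x0 j := by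
    apply Finset.sum_le_sum_of_subset_of_nonneg
    · exact Finset.Ico_subset_Ico (le_refl _) (by omega)
    · intro i hi _
      rw [Finset.mem_Ico] at hi
      exact (qpoin_RR_pos ha hl (by omega)).le
  calc (∏ i ∈ Finset.Ico (p + 1) x0, (1 + RR r l i x0)) * ∏ j ∈ Finset.Ico x0 q, (1 + RR r l x0 j)
      ≤ Real.exp (∑ i ∈ Finset.Ico (p + 1) x0, RR r l i x0) *
        Real.exp (∑ j ∈ Finset.Ico x0 q, RR r l x0 j) := by
        apply mul_le_mul g1 g2
        · apply Finset.prod_nonneg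
          intro j hj
          rw [Finset.mem_Ico] at hj
          have := qpoin_RR_pos ha hl (z := x0) (show j < N by omega)
          linarith
        · positivity
    _ = Real.exp (∑ i ∈ Finset.Ico (p + 1) x0, RR r l i x0 + ∑ j ∈ Finset.Ico x0 q, RR r l x0 j) := by
        rw [Real.exp_add]
    _ ≤ Real.exp Zs := by
        apply Real.exp_le_exp.2
        linarith

end weights

end Pool.Agent.Helper98.EX
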